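import Pool.Agent.helper56.P3.Defs

/-!
# P3, module A2: invariance of the pair function under the changes of normal form
-/

namespace Pool.Agent.helper56.P3

open Finset Pool.Agent.helper56.Per

variable {K : Type*} [Field K] {a b : K} {n m : ℕ} {L L' X : K}

theorem EN_swap {z y : K} (hz : z ≠ 0) (hy : y ≠ 0) : EN b a z⁻¹ y⁻¹ = EN a b z y := by
  unfold EN
  have e1 : a * z⁻¹ ^ 2 + 2 * z⁻¹ + b = (b * z ^ 2 + 2 * z + a) / z ^ 2 := by
    field_simp
    ring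
  have e2 : a * y⁻¹ ^ 2 + 2 * y⁻¹ + b = (b * y ^ 2 + 2 * y + a) / y ^ 2 := by
    field_simp
    ring
  have e3 : (1 - b * a) * (z⁻¹ - y⁻¹) ^ 2 = (1 - a * b) * (z - y) ^ 2 / (z ^ 2 * y ^ 2) := by
    field_simp
    ring
  have hzy : z ^ 2 * y ^ 2 ≠ 0 := mul_ne_zero (pow_ne_zero _ hz) (pow_ne_zero _ hy)
  rw [e1, e2, e3, div_mul_div_comm, div_div_div_cancel_right₀ hzy]

theorem EN_symm {z y : K} : EN a b z y = EN a b y z := by
  unfold EN
  rw [show (z - y) ^ 2 = (y - z) ^ 2 by ring, mul_comm (b * z ^ 2 + 2 * z + a)]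

theorem EN_psi {z y : K} (hab : a * b ≠ 1) (ha : a ≠ 1) (hz : (1 - a) - (1 - b) * z ≠ 0)
    (hy : (1 - a) - (1 - b) * y ≠ 0) :
    EN a ((2 - a - b) / (1 - a * b)) ((1 - a * b) * z / ((1 - a) - (1 - b) * z))
      ((1 - a * b) * y / ((1 - a) - (1 - b) * y)) = EN a b z y := by
  have hab' : 1 - a * b ≠ 0 := sub_ne_zero.2 (Ne.symm hab)
  have ha' : 1 - a ≠ 0 := sub_ne_zero.2 (Ne.symm ha)
  unfold EN
  have e1 : ∀ z : K, (1 - a) - (1 - b) * z ≠ 0 → (2 - a - b) / (1 - a * b)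
        * ((1 - a * b) * z / ((1 - a) - (1 - b) * z)) ^ 2
      + 2 * ((1 - a * b) * z / ((1 - a) - (1 - b) * z)) + a
      = (1 - a) ^ 2 * (b * z ^ 2 + 2 * z + a) / ((1 - a) - (1 - b) * z) ^ 2 := by
    intro z this
    generalize hD : (1 - a) - (1 - b) * z = D at this ⊢
    field_simp
    subst hD
    ring
  have e2 : 1 - a * ((2 - a - b) / (1 - a * b)) = (1 - a) ^ 2 / (1 - a * b) := by
    field_simp
    ring
  have e3 : (1 - a * b) * z / ((1 - a) - (1 - b) * z) - (1 - a * b) * y / ((1 - a) - (1 - b) * y)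
      = (1 - a * b) * (1 - a) * (z - y)
        / (((1 - a) - (1 - b) * z) * ((1 - a) - (1 - b) * y)) := by
    rw [div_sub_div _ _ hz hy]
    congr 1
    ring
  rw [e1 z hz, e1 y hy, e2, e3]
  generalize hD : (1 - a) - (1 - b) * z = D at hz ⊢
  generalize hD' : (1 - a) - (1 - b) * y = D' at hy ⊢
  generalize b * z ^ 2 + 2 * z + a = A
  generalize b * y ^ 2 + 2 * y + a = B
  generalize hu : z - y = u
  have hden : (1 - a) ^ 4 / (D ^ 2 * D' ^ 2) ≠ 0 :=
    div_ne_zero (pow_ne_zero _ ha') (mul_ne_zero (pow_ne_zero _ hz) (pow_ne_zero _ hy))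
  have e4 : (1 - a) ^ 2 / (1 - a * b) * ((1 - a * b) * (1 - a) * u / (D * D')) ^ 2
      = (1 - a * b) * u ^ 2 * ((1 - a) ^ 4 / (D ^ 2 * D' ^ 2)) := by
    field_simp
  have e5 : (1 - a) ^ 2 * A / D ^ 2 * ((1 - a) ^ 2 * B / D' ^ 2)
      = A * B * ((1 - a) ^ 4 / (D ^ 2 * D' ^ 2)) := by
    field_simp
  rw [e4, e5, mul_div_mul_right _ _ hden]

theorem QX.swap (h : QX n m L L' X a b) : QX n m L L' X b a := by
  obtain ⟨z, y, hz, hy, hzx, hyx, hne, hX⟩ := h
  refine ⟨_, _, hz.swap, hy.swap, fun i j hij => hzx i j (inv_injective hij),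
    fun i j hij => hyx i j (inv_injective hij), fun i j hij => hne i j (inv_injective hij), ?_⟩
  rw [← hX]
  exact prod_congr rfl fun i _ => prod_congr rfl fun j _ => EN_swap (hz.ne0 i) (hy.ne0 j)

theorem QX.psi (hab : a * b ≠ 1) (ha : a ≠ 1) (h : QX n m L L' X a b) :
    QX n m L L' X a ((2 - a - b) / (1 - a * b)) := by
  obtain ⟨z, y, hz, hy, hzx, hyx, hne, hX⟩ := h
  refine ⟨_, _, hz.psi hab ha, hy.psi hab ha,
    fun i j hij => hzx i j (psi_inj hab ha (hz.avoid i) (hz.avoid j) hij),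
    fun i j hij => hyx i j (psi_inj hab ha (hy.avoid i) (hy.avoid j) hij),
    fun i j hij => hne i j (psi_inj hab ha (hz.avoid i) (hy.avoid j) hij), ?_⟩
  rw [← hX]
  exact prod_congr rfl fun i _ => prod_congr rfl fun j _ =>
    EN_psi hab ha (hz.avoid i) (hy.avoid j)

theorem QX.symm (h : QX n m L L' X a b) : QX m n L' L X a b := by
  obtain ⟨z, y, hz, hy, hzx, hyx, hne, hX⟩ := h
  refine ⟨y, z, hy, hz, hyx, hzx, fun i j hij => hne j i hij.symm, ?_⟩
  rw [← hX, prod_comm]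
  exact prod_congr rfl fun i _ => prod_congr rfl fun j _ => EN_symm

theorem QX.toQ2 (h : QX n m L L' X a b) : Q2 n m L L' a b := by
  obtain ⟨z, y, hz, hy, _, _, hne, _⟩ := h
  exact ⟨z, y, hz, hy, hne⟩

end Pool.Agent.helper56.P3
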